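import Pool.Agent.Q151.Ships.Per

/-!
Any two 3-point patterns are hit by a periodic set of density at most `1/2`.
-/

set_option autoImplicit false

namespace Q151.Ships

/-- a 23-periodic set -/
def Pat (l : List ℤ) : Set ℤ := {x | x % 23 ∈ l}

theorem pat_hit (l : List ℤ) (u v : ℤ)
    (h : ∀ i ∈ List.range 23, (i : ℤ) % 23 ∈ l ∨ ((i : ℤ) + u) % 23 ∈ l ∨ ((i : ℤ) + v) % 23 ∈ l) :
    Hit (Pat l) u v := by
  intro t
  have h0 := Int.emod_nonneg t (b := 23) (by norm_num)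
  have h1 := Int.emod_lt_of_pos t (b := 23) (by norm_num)
  have h2 := h (t % 23).toNat (List.mem_range.2 (by omega))
  rw [Int.toNat_of_nonneg h0, Int.emod_add_emod, Int.emod_add_emod,
    Int.emod_emod_of_dvd _ (dvd_refl _)] at h2
  exact h2

theorem pat_per (l : List ℤ) (K : ℕ)
    (h : ((Finset.range 23).filter fun i : ℕ => (0 + (i : ℤ)) % 23 ∈ l).card = K) :
    Per (Pat l) 23 K := by
  classical
  refine ⟨by norm_num, ?_, ?_⟩
  · intro x
    unfold Pat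
    simp only [Set.mem_ofPred_eq]
    have : (x + ((23 : ℕ) : ℤ)) % 23 = x % 23 := by push_cast; omega
    rw [this]
  · rw [← h]
    unfold cnt Pat
    congr 1
    ext i
    simp

theorem pat_ok (l : List ℤ) (u v w z : ℤ)
    (h : ((Finset.range 23).filter fun i : ℕ => (0 + (i : ℤ)) % 23 ∈ l).card = 11)
    (h1 : ∀ i ∈ List.range 23, (i : ℤ) % 23 ∈ l ∨ ((i : ℤ) + u) % 23 ∈ l ∨ ((i : ℤ) + v) % 23 ∈ l)
    (h2 : ∀ i ∈ List.range 23, (i : ℤ) % 23 ∈ l ∨ ((i : ℤ) + w) % 23 ∈ l ∨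
      ((i : ℤ) + z) % 23 ∈ l) : OK u v w z :=
  ⟨Pat l, 23, 11, pat_per l 11 h, by norm_num, pat_hit l u v h1, pat_hit l w z h2⟩

theorem exc_ok {a a' c c' : ℤ} (h : Exc a a' c c') :
    OK a (a + a') (2 ^ 1 * c) (2 ^ 1 * (c + c')) := by
  obtain ⟨h1, h2⟩ := h
  have A1B1 := fun u v w z => pat_ok [0, 1, 3, 7, 8, 10, 11, 13, 16, 20, 21] u v w z (by decide)
  have A1B2 := fun u v w z => pat_ok [0, 1, 4, 7, 8, 9, 10, 13, 18, 20, 21] u v w z (by decide)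
  have A2B1 := fun u v w z => pat_ok [4, 7, 8, 9, 10, 13, 16, 17, 19, 20, 22] u v w z (by decide)
  have A2B2 := fun u v w z => pat_ok [2, 4, 7, 8, 9, 13, 16, 18, 19, 21, 22] u v w z (by decide)
  rcases h1 with ⟨rfl, rfl⟩ | ⟨rfl, rfl⟩ | ⟨rfl, rfl⟩ | ⟨rfl, rfl⟩
  · rcases h2 with ⟨rfl, rfl⟩ | ⟨rfl, rfl⟩ | ⟨rfl, rfl⟩ | ⟨rfl, rfl⟩
    · exact A1B1 _ _ _ _ (by decide) (by decide)
    · exact A1B2 _ _ _ _ (by decide) (by decide)
    · exact A1B1 _ _ _ _ (by decide) (by decide)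
    · exact A1B2 _ _ _ _ (by decide) (by decide)
  · rcases h2 with ⟨rfl, rfl⟩ | ⟨rfl, rfl⟩ | ⟨rfl, rfl⟩ | ⟨rfl, rfl⟩
    · exact A2B1 _ _ _ _ (by decide) (by decide)
    · exact A2B2 _ _ _ _ (by decide) (by decide)
    · exact A2B1 _ _ _ _ (by decide) (by decide)
    · exact A2B2 _ _ _ _ (by decide) (by decide)
  · rcases h2 with ⟨rfl, rfl⟩ | ⟨rfl, rfl⟩ | ⟨rfl, rfl⟩ | ⟨rfl, rfl⟩
    · exact A2B1 _ _ _ _ (by decide) (by decide)
    · exact A2B2 _ _ _ _ (by decide) (by decide)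
    · exact A2B1 _ _ _ _ (by decide) (by decide)
    · exact A2B2 _ _ _ _ (by decide) (by decide)
  · rcases h2 with ⟨rfl, rfl⟩ | ⟨rfl, rfl⟩ | ⟨rfl, rfl⟩ | ⟨rfl, rfl⟩
    · exact A1B1 _ _ _ _ (by decide) (by decide)
    · exact A1B2 _ _ _ _ (by decide) (by decide)
    · exact A1B1 _ _ _ _ (by decide) (by decide)
    · exact A1B2 _ _ _ _ (by decide) (by decide)

theorem mixed_coprime {k : ℕ} (hk : 1 ≤ k) {a a' c c' : ℤ} (ha : a % 2 = 1) (ha' : a' % 2 = 1)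
    (hc : c % 2 = 1) (hc' : c' % 2 = 1) (hs : a + a' ≠ 0) (hd : c + c' ≠ 0)
    (hco : ∀ g : ℤ, 0 < g → g ∣ a → g ∣ a' → g ∣ c → g ∣ c' → g = 1) :
    OK a (a + a') (2 ^ k * c) (2 ^ k * (c + c')) := by
  have hpow : (2 : ℤ) ^ k ≠ 0 := by positivity
  have habs : ∀ x : ℤ, x = |x| ∨ x = -|x| := by
    intro x
    rcases abs_choice x with h | h <;> rw [h] <;> simp
  rcases main_nt hk ha ha' hc hc' hs hd hco with h | h | h | h | ⟨rfl, h⟩
  · exact ok_of_good (abs_pos.2 (mul_ne_zero hpow (by omega))) h (Or.inl (habs _))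
  · refine ok_of_good (abs_pos.2 (mul_ne_zero hpow (by omega))) h (Or.inr ?_)
    have : (2 : ℤ) ^ k * (c + c') - 2 ^ k * c = 2 ^ k * c' := by ring
    rw [this]
    exact habs _
  · exact (ok_of_good (abs_pos.2 (by omega)) h (Or.inl (habs _))).symm
  · refine (ok_of_good (abs_pos.2 (by omega)) h (Or.inr ?_)).symm
    rw [add_sub_cancel_left]
    exact habs _
  · exact exc_ok h

theorem mixed {k : ℕ} (hk : 1 ≤ k) {a a' c c' : ℤ} (ha : a % 2 = 1) (ha' : a' % 2 = 1)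
    (hc : c % 2 = 1) (hc' : c' % 2 = 1) (hs : a + a' ≠ 0) (hd : c + c' ≠ 0) :
    OK a (a + a') (2 ^ k * c) (2 ^ k * (c + c')) := by
  obtain ⟨g, hg⟩ : ∃ g : ℕ, g = Int.gcd (Int.gcd a a') (Int.gcd c c') := ⟨_, rfl⟩
  have hg1 : (g : ℤ) ∣ (Int.gcd a a' : ℤ) := hg ▸ Int.gcd_dvd_left _ _
  have hg2 : (g : ℤ) ∣ (Int.gcd c c' : ℤ) := hg ▸ Int.gcd_dvd_right _ _
  have ga : (g : ℤ) ∣ a := hg1.trans (Int.gcd_dvd_left _ _)
  have ga' : (g : ℤ) ∣ a' := hg1.trans (Int.gcd_dvd_right _ _)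
  have gc : (g : ℤ) ∣ c := hg2.trans (Int.gcd_dvd_left _ _)
  have gc' : (g : ℤ) ∣ c' := hg2.trans (Int.gcd_dvd_right _ _)
  have hmax : ∀ h : ℤ, h ∣ a → h ∣ a' → h ∣ c → h ∣ c' → h ∣ g := by
    intro h h1 h2 h3 h4
    rw [hg]
    exact Int.dvd_coe_gcd (Int.dvd_coe_gcd h1 h2) (Int.dvd_coe_gcd h3 h4)
  have hg0 : 0 < g := by
    rcases Nat.eq_zero_or_pos g with h | h
    · rw [h] at ga
      have := zero_dvd_iff.1 (by simpa using ga : (0 : ℤ) ∣ a)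
      omega
    · exact h
  have hgz : (0 : ℤ) < g := by exact_mod_cast hg0
  obtain ⟨b, rfl⟩ := ga
  obtain ⟨b', rfl⟩ := ga'
  obtain ⟨d, rfl⟩ := gc
  obtain ⟨d', rfl⟩ := gc'
  have h := mixed_coprime hk (odd_of_dvd (Dvd.intro_left _ rfl) ha)
    (odd_of_dvd (Dvd.intro_left _ rfl) ha') (odd_of_dvd (Dvd.intro_left _ rfl) hc)
    (odd_of_dvd (Dvd.intro_left _ rfl) hc')
    (fun h => hs (by rw [← mul_add, h, mul_zero])) (fun h => hd (by rw [← mul_add, h, mul_zero]))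
    (by
      intro x hx h1 h2 h3 h4
      have h5 := hmax (g * x) (mul_dvd_mul_left _ h1) (mul_dvd_mul_left _ h2)
        (mul_dvd_mul_left _ h3) (mul_dvd_mul_left _ h4)
      have h6 := Int.le_of_dvd hgz h5
      have : x ≤ 1 := by
        by_contra hcon
        have : 2 ≤ x := by omega
        nlinarith
      omega)
  have h' := h.dil g hg0
  rw [show (g : ℤ) * (b + b') = g * b + g * b' by ring,
    show (g : ℤ) * (2 ^ k * d) = 2 ^ k * (g * d) by ring,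
    show (g : ℤ) * (2 ^ k * (d + d')) = 2 ^ k * (g * d + g * d') by ring] at h'
  exact h'

theorem two_part (n : ℤ) (hn : n ≠ 0) : ∃ (i : ℕ) (m : ℤ), n = 2 ^ i * m ∧ m % 2 = 1 := by
  have : ∀ N : ℕ, ∀ n : ℤ, n ≠ 0 → n.natAbs = N → ∃ (i : ℕ) (m : ℤ), n = 2 ^ i * m ∧ m % 2 = 1 := by
    intro N
    induction N using Nat.strong_induction_on with
    | _ N ih =>
    intro n hn hN
    rcases Int.emod_two_eq_zero_or_one n with h | h
    · obtain ⟨c, rfl⟩ : ∃ c, n = 2 * c := ⟨n / 2, by omega⟩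
      obtain ⟨i, m, h1, h2⟩ := ih c.natAbs (by omega) c (by omega) rfl
      exact ⟨i + 1, m, by rw [h1]; ring, h2⟩
    · exact ⟨0, n, by simp, h⟩
  exact this _ n hn rfl

theorem canon (u v : ℤ) (hu : u ≠ 0) (hv : v ≠ 0) (huv : u ≠ v) :
    ∃ (e : ℕ) (a a' : ℤ), a % 2 = 1 ∧ a' % 2 = 1 ∧ a + a' ≠ 0 ∧
      ∀ X, Hit X (2 ^ e * a) (2 ^ e * (a + a')) → Hit X u v := by
  obtain ⟨i, u', hu', huo⟩ := two_part u hu
  obtain ⟨j, v', hv', hvo⟩ := two_part v hv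
  rcases lt_trichotomy i j with hij | hij | hij
  · obtain ⟨d, rfl⟩ : ∃ d, j = i + (d + 1) := ⟨j - i - 1, by omega⟩
    have e1 : v = 2 ^ i * (2 * (2 ^ d * v')) := by rw [hv']; ring
    refine ⟨i, u', 2 * (2 ^ d * v') - u', huo, by omega, ?_, ?_⟩
    · rw [add_sub_cancel]
      intro h
      apply hv
      rw [e1, h, mul_zero]
    · intro X h
      rwa [add_sub_cancel, ← hu', ← e1] at h
  · subst hij
    refine ⟨i, -u', v', by omega, hvo, ?_, ?_⟩
    · intro h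
      apply huv
      rw [hu', hv']
      congr 1
      omega
    · intro X h t
      have h1 := h (t + u)
      rw [show t + u + 2 ^ i * -u' = t by rw [hu']; ring,
        show t + u + 2 ^ i * (-u' + v') = t + v by rw [hu', hv']; ring] at h1
      tauto
  · obtain ⟨d, rfl⟩ : ∃ d, i = j + (d + 1) := ⟨i - j - 1, by omega⟩
    have e1 : u = 2 ^ j * (2 * (2 ^ d * u')) := by rw [hu']; ring
    refine ⟨j, v', 2 * (2 ^ d * u') - v', hvo, by omega, ?_, ?_⟩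
    · rw [add_sub_cancel]
      intro h
      apply hu
      rw [e1, h, mul_zero]
    · intro X h t
      rw [add_sub_cancel, ← hv', ← e1] at h
      have := h t
      tauto

/-- **Any two patterns.** -/
theorem ok_all (u v w z : ℤ) (hu : u ≠ 0) (hv : v ≠ 0) (huv : u ≠ v) (hw : w ≠ 0) (hz : z ≠ 0)
    (hwz : w ≠ z) : OK u v w z := by
  obtain ⟨e, a, a', ha, ha', hs, h1⟩ := canon u v hu hv huv
  obtain ⟨f, c, c', hc, hc', hd, h2⟩ := canon w z hw hz hwz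
  suffices h : OK (2 ^ e * a) (2 ^ e * (a + a')) (2 ^ f * c) (2 ^ f * (c + c')) from h.imp h1 h2
  have hdil : ∀ (e k : ℕ) (a a' c c' : ℤ), OK a (a + a') (2 ^ k * c) (2 ^ k * (c + c')) →
      OK (2 ^ e * a) (2 ^ e * (a + a')) (2 ^ (e + k) * c) (2 ^ (e + k) * (c + c')) := by
    intro e k a a' c c' h
    have h' := h.dil (2 ^ e) (by positivity)
    push_cast at h'
    rw [pow_add, mul_assoc, mul_assoc]
    exact h'
  rcases lt_trichotomy e f with hef | hef | hef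
  · obtain ⟨k, hk, rfl⟩ : ∃ k, 1 ≤ k ∧ f = e + k := ⟨f - e, by omega, by omega⟩
    exact hdil e k a a' c c' (mixed hk ha ha' hc hc' hs hd)
  · subst hef
    have h : OK a (a + a') (2 ^ 0 * c) (2 ^ 0 * (c + c')) := by
      rw [pow_zero, one_mul, one_mul]
      refine ⟨XX 1 1, 2 * (1 : ℤ).toNat, (1 : ℤ).toNat, XX_per one_pos (by norm_num), le_rfl,
        ?_, ?_⟩
      · apply hit_anti one_pos
        left
        rw [one_mul]; omega
      · apply hit_anti one_pos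
        left
        rw [one_mul]; omega
    have := hdil e 0 a a' c c' h
    rwa [add_zero] at this
  · obtain ⟨k, hk, rfl⟩ : ∃ k, 1 ≤ k ∧ e = f + k := ⟨e - f, by omega, by omega⟩
    exact (hdil f k c c' a a' (mixed hk hc hc' ha ha' hd hs)).symm

end Q151.Ships
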