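import Pool.Agent.Q151.Ships.Num

/-!
For two 3-point patterns of different 2-adic levels one of the four differences gives a good
modulus, except for one explicit pair of patterns.
-/

set_option autoImplicit false

namespace Q151.Ships

/-- failure at the modulus `K c` -/
def FE (K a a' c : ℤ) : Prop := 2 * (K * c) ∣ a + a' ∨ 2 * (K * c) ∣ a' - a - K * c

/-- the exceptional patterns -/
def Exc (a a' c c' : ℤ) : Prop :=
  ((a = 7 ∧ a' = 1) ∨ (a = -7 ∧ a' = -1) ∨ (a = 1 ∧ a' = 7) ∨ (a = -1 ∧ a' = -7)) ∧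
  ((c = 3 ∧ c' = -1) ∨ (c = -3 ∧ c' = 1) ∨ (c = 1 ∧ c' = -3) ∨ (c = -1 ∧ c' = 3))

instance (K a a' c : ℤ) : Decidable (FE K a a' c) := by unfold FE; infer_instance

instance (a a' c c' : ℤ) : Decidable (Exc a a' c c') := by unfold Exc; infer_instance

theorem fe_of_not_good {K a a' c : ℤ} (hK : 0 < K) (hK2 : K % 2 = 0) (ha : a % 2 = 1)
    (ha' : a' % 2 = 1) (hc : c % 2 = 1) (h : ¬ Good |K * c| a (a + a')) : FE K a a' c := by
  by_contra hcon
  unfold FE at hcon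
  push Not at hcon
  obtain ⟨h1, h2⟩ := hcon
  apply h
  have hKc : K * c ≠ 0 := mul_ne_zero (by omega) (by omega)
  have hpos : 0 < |K * c| := abs_pos.2 hKc
  have heven : |K * c| % 2 = 0 := by
    have : (2 : ℤ) ∣ K * c := Dvd.dvd.mul_right (Int.dvd_of_emod_eq_zero hK2) c
    exact Int.emod_eq_zero_of_dvd ((dvd_abs _ _).2 this)
  have habs : ∀ x : ℤ, 2 * |K * c| ∣ x ↔ 2 * (K * c) ∣ x := by
    intro x
    rw [show (2 : ℤ) * |K * c| = |2 * (K * c)| by rw [abs_mul 2, abs_two], abs_dvd]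
  apply good_even _ _ _ hpos heven ha (by omega)
  · rw [habs]; exact h1
  · rw [habs]
    intro h3
    apply h2
    rcases abs_choice (K * c) with h4 | h4
    · rw [h4] at h3
      have : a' - a - K * c = a + a' - 2 * a - K * c := by ring
      rwa [this]
    · rw [h4] at h3
      have : a' - a - K * c = (a + a' - 2 * a - -(K * c)) - 2 * (K * c) := by ring
      rw [this]
      exact dvd_sub h3 dvd_rfl

/-- bound from failure -/
theorem FE.bound {K a a' c : ℤ} (hK : 0 < K) (hc : c % 2 = 1) (hs : a + a' ≠ 0)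
    (h : FE K a a' c) : 2 * (K * |c|) ≤ |a + a'| ∨ K * |c| ≤ |a' - a| := by
  have hKc : K * c ≠ 0 := mul_ne_zero (by omega) (by omega)
  rcases h with h | h
  · left
    have := Int.le_of_dvd (abs_pos.2 hs) ((abs_dvd_abs _ _).2 h)
    rwa [abs_mul, abs_mul, abs_of_pos hK, abs_two] at this
  · right
    obtain ⟨t, ht⟩ := h
    have h1 : a' - a = K * c * (2 * t + 1) := by linarith
    rw [h1, abs_mul, abs_mul, abs_of_pos hK]
    have h2 : 1 ≤ |2 * t + 1| := Int.one_le_abs (by omega)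
    have h3 : 0 ≤ K * |c| := by positivity
    nlinarith

theorem FE.dvd {K a a' c : ℤ} (h : FE K a a' c) : c ∣ a + a' ∨ c ∣ a' - a := by
  rcases h with h | h
  · left
    exact (Dvd.intro_left _ (by ring : (2 * K) * c = 2 * (K * c))).trans h
  · right
    obtain ⟨t, ht⟩ := h
    exact ⟨K * (2 * t + 1), by linarith⟩

theorem FE.swap {K a a' c : ℤ} (h : FE K a a' c) : FE K a' a c := by
  rcases h with h | h
  · left; rwa [add_comm]
  · right
    have : a - a' - K * c = -(a' - a - K * c) - 2 * (K * c) := by ring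
    rw [this]
    exact dvd_sub ((dvd_neg).2 h) dvd_rfl

/-- failure at an odd modulus, ordinary case -/
def NF (a c c' : ℤ) : Prop := a ∣ c ∨ a ∣ c + c' ∨ a ∣ c'

instance (a c c' : ℤ) : Decidable (NF a c c') := by unfold NF; infer_instance

/-- failure at an odd modulus, Fano case -/
def FF (a c c' : ℤ) : Prop :=
  ∃ g, 0 < g ∧ |a| = 7 * g ∧ g ∣ c ∧ g ∣ c' ∧ (a ∣ c' - 2 * c ∨ a ∣ c' - 4 * c)

theorem fo_of_not_good {k : ℕ} (hk : 1 ≤ k) {a c c' : ℤ} (ha : a % 2 = 1)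
    (h : ¬ Good |a| (2 ^ k * c) (2 ^ k * (c + c'))) : NF a c c' ∨ FF a c c' := by
  obtain ⟨j, rfl⟩ : ∃ j, k = j + 1 := ⟨k - 1, by omega⟩
  have ha0 : a ≠ 0 := by omega
  have hcop : ∀ x : ℤ, x % 2 = 1 → ∀ y, x ∣ 2 ^ j * y → x ∣ y := by
    intro x hx y hy
    have h1 : IsCoprime x 2 := ⟨1, -(x / 2), by omega⟩
    exact (h1.pow_right (n := j)).dvd_of_dvd_mul_left hy
  have hodd : |a| % 2 = 1 := by
    rcases abs_choice a with h | h <;> omega
  by_contra hcon
  push Not at hcon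
  obtain ⟨h1, h2⟩ := hcon
  unfold NF at h1
  push Not at h1
  obtain ⟨h3, h4, h5⟩ := h1
  apply h
  have e1 : (2 : ℤ) ^ (j + 1) * c = 2 * (2 ^ j * c) := by ring
  have e2 : (2 : ℤ) ^ (j + 1) * (c + c') = 2 * (2 ^ j * (c + c')) := by ring
  rw [e1, e2]
  apply good_odd _ _ _ (abs_pos.2 ha0) hodd
  · rw [abs_dvd]; exact fun h => h3 (hcop a ha _ h)
  · rw [abs_dvd]; exact fun h => h4 (hcop a ha _ h)
  · rw [abs_dvd, show (2 : ℤ) ^ j * c - 2 ^ j * (c + c') = 2 ^ j * (-c') by ring]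
    intro h
    exact h5 ((dvd_neg).1 (hcop a ha _ h))
  · rintro ⟨g, hg, h7, hgU, hgV, hor⟩
    apply h2
    have hgo : g % 2 = 1 := by omega
    have hgc := hcop g hgo _ hgU
    have hgcc := hcop g hgo _ hgV
    refine ⟨g, hg, h7, hgc, ?_, ?_⟩
    · have := dvd_sub hgcc hgc
      rwa [add_sub_cancel_left] at this
    · rw [abs_dvd, abs_dvd] at hor
      rcases hor with h | h
      · left
        apply hcop a ha
        rwa [show (2 : ℤ) ^ j * (c' - 2 * c) = 2 ^ j * (c + c') - 3 * (2 ^ j * c) by ring]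
      · right
        apply hcop a ha
        rwa [show (2 : ℤ) ^ j * (c' - 4 * c) = 2 ^ j * (c + c') - 5 * (2 ^ j * c) by ring]

theorem NF.bound {a c c' : ℤ} (ha : a % 2 = 1) (hc : c % 2 = 1) (hc' : c' % 2 = 1)
    (hd : c + c' ≠ 0) (h : NF a c c') : |a| ≤ max |c| |c'| := by
  have key : ∀ y : ℤ, y ≠ 0 → a ∣ y → |a| ≤ |y| := fun y hy h =>
    Int.le_of_dvd (abs_pos.2 hy) ((abs_dvd_abs _ _).2 h)
  rcases h with h | h | h
  · exact (key c (by omega) h).trans (le_max_left _ _)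
  · obtain ⟨e, he⟩ : ∃ e, c + c' = 2 * e := ⟨(c + c') / 2, by omega⟩
    have h1 : IsCoprime a 2 := ⟨1, -(a / 2), by omega⟩
    rw [he] at h
    have h2 := key e (by omega) (h1.dvd_of_dvd_mul_left h)
    have h3 : 2 * |e| ≤ |c| + |c'| := by
      have : |2 * e| = 2 * |e| := by rw [abs_mul, abs_two]
      rw [← this, ← he]
      exact abs_add_le _ _
    have h4 := le_max_left |c| |c'|
    have h5 := le_max_right |c| |c'|
    omega
  · exact (key c' (by omega) h).trans (le_max_right _ _)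

theorem FF.seven {K a a' c c' : ℤ} (hco : ∀ g : ℤ, 0 < g → g ∣ a → g ∣ a' → g ∣ c → g ∣ c' → g = 1)
    (h1 : FE K a a' c) (h : FF a c c') : |a| = 7 ∧ (7 ∣ c' - 2 * c ∨ 7 ∣ c' - 4 * c) := by
  obtain ⟨g, hg, h7, hgc, hgc', hor⟩ := h
  have hga : g ∣ a := by
    rw [← dvd_abs, h7]; exact Dvd.intro_left _ rfl
  have hga' : g ∣ a' := by
    rcases h1.dvd with h | h
    · have := dvd_sub (hgc.trans h) hga
      rwa [add_sub_cancel_left] at this
    · have := dvd_add (hgc.trans h) hga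
      rwa [sub_add_cancel] at this
  have hg1 := hco g hg hga hga' hgc hgc'
  have ha7 : |a| = 7 := by omega
  refine ⟨ha7, ?_⟩
  rw [← ha7, abs_dvd, abs_dvd]
  exact hor

theorem fin_check : ∀ K ∈ [(2 : ℤ), 4, 8], ∀ a ∈ [(7 : ℤ), -7], ∀ a' ∈ [(-5 : ℤ), -3, -1, 1, 3, 5],
    ∀ c ∈ [(-5 : ℤ), -3, -1, 1, 3, 5], ∀ c' ∈ [(-5 : ℤ), -3, -1, 1, 3, 5],
    c + c' ≠ 0 → FE K a a' c → FE K a a' c' → (7 ∣ c' - 2 * c ∨ 7 ∣ c' - 4 * c) → NF a' c c' →
    K = 2 ∧ Exc a a' c c' := by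
  decide +kernel

/-- The one-sided Fano case. -/
theorem fano_case {k : ℕ} (hk : 1 ≤ k) {a a' c c' : ℤ} (ha : a % 2 = 1) (ha' : a' % 2 = 1)
    (hc : c % 2 = 1) (hc' : c' % 2 = 1) (hs : a + a' ≠ 0) (hd : c + c' ≠ 0)
    (h1 : FE (2 ^ k) a a' c) (h2 : FE (2 ^ k) a a' c') (ha7 : |a| = 7)
    (hor : 7 ∣ c' - 2 * c ∨ 7 ∣ c' - 4 * c) (hn : NF a' c c') : k = 1 ∧ Exc a a' c c' := by
  have hb := hn.bound ha' hc hc' hd
  have hK2 : (2 : ℤ) ≤ 2 ^ k := by
    calc (2 : ℤ) = 2 ^ 1 := by norm_num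
      _ ≤ 2 ^ k := pow_le_pow_right₀ (by norm_num) hk
  have hK0 : (0 : ℤ) < 2 ^ k := by omega
  obtain ⟨C, hC⟩ : ∃ C, C = max |c| |c'| := ⟨_, rfl⟩
  have hCb : 2 * (2 ^ k * C) ≤ |a + a'| ∨ 2 ^ k * C ≤ |a' - a| := by
    rcases le_total |c| |c'| with h | h
    · rw [hC, max_eq_right h]; exact h2.bound hK0 hc' hs
    · rw [hC, max_eq_left h]; exact h1.bound hK0 hc hs
  rw [← hC] at hb
  have hsum : |a + a'| + |a' - a| = 2 * max |a| |a'| := by
    rcases le_total 0 a with h | h <;> rcases le_total 0 a' with h' | h' <;>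
    rcases le_total 0 (a + a') with h3 | h3 <;> rcases le_total 0 (a' - a) with h4 | h4 <;>
    simp only [abs_of_nonneg, abs_of_nonpos, h, h', h3, h4] <;> omega
  have hspos : 1 ≤ |a + a'| := Int.one_le_abs hs
  have hC1 : 1 ≤ C := by
    have := Int.one_le_abs (z := a') (by omega)
    omega
  have hKC : 2 * C ≤ 2 ^ k * C := by nlinarith
  have hdpos := abs_nonneg (a' - a)
  have ha'7 : |a'| < 7 := by
    by_contra hcon
    have hm : max |a| |a'| = |a'| := max_eq_right (by omega)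
    rw [hm] at hsum
    omega
  have hm : max |a| |a'| = 7 := by rw [ha7]; exact max_eq_left (by omega)
  rw [hm] at hsum
  have hC6 : C ≤ 6 := by omega
  have hKCle : 2 ^ k * C ≤ 13 := by omega
  have hc6 : |c| ≤ 6 := (le_max_left _ _).trans (hC ▸ hC6)
  have hc6' : |c'| ≤ 6 := (le_max_right _ _).trans (hC ▸ hC6)
  rw [abs_le] at hc6 hc6'
  have ha'6 : |a'| ≤ 6 := by omega
  rw [abs_le] at ha'6
  have hk3 : k ≤ 3 := by
    by_contra hcon
    have : (2 : ℤ) ^ 4 ≤ 2 ^ k := pow_le_pow_right₀ (by norm_num) (by omega)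
    nlinarith
  have hKmem : (2 : ℤ) ^ k ∈ [(2 : ℤ), 4, 8] := by
    interval_cases k <;> simp
  have hamem : a ∈ [(7 : ℤ), -7] := by
    rcases abs_choice a with h | h
    · have : a = 7 := by omega
      simp [this]
    · have : a = -7 := by omega
      simp [this]
  have hmem : ∀ x : ℤ, x % 2 = 1 → -6 ≤ x → x ≤ 6 → x ∈ [(-5 : ℤ), -3, -1, 1, 3, 5] := by
    intro x hx h1 h2
    have : x = -5 ∨ x = -3 ∨ x = -1 ∨ x = 1 ∨ x = 3 ∨ x = 5 := by omega
    rcases this with rfl | rfl | rfl | rfl | rfl | rfl <;> simp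
  obtain ⟨hK, hE⟩ := fin_check _ hKmem a hamem a' (hmem a' ha' ha'6.1 ha'6.2) c
    (hmem c hc hc6.1 hc6.2) c' (hmem c' hc' hc6'.1 hc6'.2) hd h1 h2 hor hn
  refine ⟨?_, hE⟩
  interval_cases k
  · rfl
  · norm_num at hK
  · norm_num at hK

theorem main_nt {k : ℕ} (hk : 1 ≤ k) {a a' c c' : ℤ} (ha : a % 2 = 1) (ha' : a' % 2 = 1)
    (hc : c % 2 = 1) (hc' : c' % 2 = 1) (hs : a + a' ≠ 0) (hd : c + c' ≠ 0)
    (hco : ∀ g : ℤ, 0 < g → g ∣ a → g ∣ a' → g ∣ c → g ∣ c' → g = 1) :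
    Good |2 ^ k * c| a (a + a') ∨ Good |2 ^ k * c'| a (a + a') ∨
    Good |a| (2 ^ k * c) (2 ^ k * (c + c')) ∨ Good |a'| (2 ^ k * c) (2 ^ k * (c + c')) ∨
    (k = 1 ∧ Exc a a' c c') := by
  by_contra hcon
  push Not at hcon
  obtain ⟨g1, g2, g3, g4, g5⟩ := hcon
  have hK2 : (2 : ℤ) ≤ 2 ^ k := by
    calc (2 : ℤ) = 2 ^ 1 := by norm_num
      _ ≤ 2 ^ k := pow_le_pow_right₀ (by norm_num) hk
  have hK0 : (0 : ℤ) < 2 ^ k := by omega
  have hKe : (2 : ℤ) ^ k % 2 = 0 := by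
    obtain ⟨j, rfl⟩ : ∃ j, k = j + 1 := ⟨k - 1, by omega⟩
    rw [pow_succ, mul_comm]; exact Int.mul_emod_right _ _
  have f1 := fe_of_not_good hK0 hKe ha ha' hc g1
  have f2 := fe_of_not_good hK0 hKe ha ha' hc' g2
  have hco' : ∀ g : ℤ, 0 < g → g ∣ a' → g ∣ a → g ∣ c → g ∣ c' → g = 1 :=
    fun g h h1 h2 h3 h4 => hco g h h2 h1 h3 h4
  rcases fo_of_not_good hk ha g3 with n1 | n1
  · rcases fo_of_not_good hk ha' g4 with n2 | n2
    · -- both ordinary
      have hb1 := n1.bound ha hc hc' hd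
      have hb2 := n2.bound ha' hc hc' hd
      obtain ⟨C, hC⟩ : ∃ C, C = max |c| |c'| := ⟨_, rfl⟩
      have hCb : 2 * (2 ^ k * C) ≤ |a + a'| ∨ 2 ^ k * C ≤ |a' - a| := by
        rcases le_total |c| |c'| with h | h
        · rw [hC, max_eq_right h]; exact f2.bound hK0 hc' hs
        · rw [hC, max_eq_left h]; exact f1.bound hK0 hc hs
      rw [← hC] at hb1 hb2
      have hsum : |a + a'| + |a' - a| = 2 * max |a| |a'| := by
        rcases le_total 0 a with h | h <;> rcases le_total 0 a' with h' | h' <;>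
        rcases le_total 0 (a + a') with h3 | h3 <;> rcases le_total 0 (a' - a) with h4 | h4 <;>
        simp only [abs_of_nonneg, abs_of_nonpos, h, h', h3, h4] <;> omega
      have hspos : 1 ≤ |a + a'| := Int.one_le_abs hs
      have hC1 : 1 ≤ C := by
        have := Int.one_le_abs (z := a') (by omega)
        omega
      have hKC : 2 * C ≤ 2 ^ k * C := by nlinarith
      have hm : max |a| |a'| ≤ C := max_le hb1 hb2
      have hdpos := abs_nonneg (a' - a)
      omega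
    · obtain ⟨h7, hor⟩ := FF.seven hco' f1.swap n2
      have hE := fano_case hk ha' ha hc hc' (by omega) hd f1.swap f2.swap h7 hor n1
      apply g5 hE.1
      obtain ⟨hE1, hE2⟩ := hE.2
      exact ⟨by tauto, hE2⟩
  · obtain ⟨h7, hor⟩ := FF.seven hco f1 n1
    rcases fo_of_not_good hk ha' g4 with n2 | n2
    · have hE := fano_case hk ha ha' hc hc' hs hd f1 f2 h7 hor n2
      exact g5 hE.1 hE.2
    · -- both Fano
      obtain ⟨h7', -⟩ := FF.seven hco' f1.swap n2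
      have haa : a = a' := by
        rcases abs_choice a with h | h <;> rcases abs_choice a' with h' | h' <;> omega
      subst haa
      obtain ⟨j, rfl⟩ : ∃ j, k = j + 1 := ⟨k - 1, by omega⟩
      rcases f1 with h | h
      · have h4 : (4 : ℤ) ∣ a + a := by
          refine Dvd.dvd.trans ?_ h
          exact ⟨2 ^ j * c, by ring⟩
        omega
      · have h4 : 2 * (2 ^ (j + 1) * c) ∣ 2 ^ (j + 1) * c := by
          have : a - a - 2 ^ (j + 1) * c = -(2 ^ (j + 1) * c) := by ring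
          rw [this] at h
          exact (dvd_neg).1 h
        obtain ⟨t, ht⟩ := h4
        have hne : (2 : ℤ) ^ (j + 1) * c ≠ 0 := mul_ne_zero (by positivity) (by omega)
        have : (2 * t) * (2 ^ (j + 1) * c) = 1 * (2 ^ (j + 1) * c) := by linarith
        have := mul_right_cancel₀ hne this
        omega

end Q151.Ships
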