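import Mathlib

/-!
Number theory for hitting two 3-point patterns: for a pattern `{0, u, v}` and a modulus `2m` when
is there an odd `r` such that the points `0, r u, r v` on the circle of length `2m` are not
contained in a half-open half circle?
-/

set_option autoImplicit false

namespace Q151.Ships

/-- the points `0, x, y` (in `[0, 2m)`) of the circle of length `2m` have all gaps at most `m` -/
def Arc (m x y : ℤ) : Prop := (x ≤ m ∧ m ≤ y ∧ y ≤ x + m) ∨ (y ≤ m ∧ m ≤ x ∧ x ≤ y + m)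

/-- some odd dilation is good -/
def Good (m u v : ℤ) : Prop := ∃ r : ℤ, r % 2 = 1 ∧ Arc m ((r * u) % (2 * m)) ((r * v) % (2 * m))

theorem emod_of {X q n : ℤ} (t : ℤ) (h : X = q + n * t) (h0 : 0 ≤ q) (h1 : q < n) : X % n = q := by
  rw [h, Int.add_mul_emod_self_left, Int.emod_eq_of_lt h0 h1]

theorem Good.scale {m u v g : ℤ} (hg : 0 < g) (h : Good m u v) : Good (g * m) (g * u) (g * v) := by
  obtain ⟨r, hr, h⟩ := h
  refine ⟨r, hr, ?_⟩
  have e1 : r * (g * u) % (2 * (g * m)) = g * (r * u % (2 * m)) := by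
    rw [show r * (g * u) = g * (r * u) by ring, show 2 * (g * m) = g * (2 * m) by ring,
      Int.mul_emod_mul_of_pos _ _ hg]
  have e2 : r * (g * v) % (2 * (g * m)) = g * (r * v % (2 * m)) := by
    rw [show r * (g * v) = g * (r * v) by ring, show 2 * (g * m) = g * (2 * m) by ring,
      Int.mul_emod_mul_of_pos _ _ hg]
  rw [e1, e2]
  unfold Arc at h ⊢
  rcases h with ⟨h1, h2, h3⟩ | ⟨h1, h2, h3⟩
  · left
    refine ⟨by nlinarith, by nlinarith, by nlinarith⟩
  · right
    refine ⟨by nlinarith, by nlinarith, by nlinarith⟩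

/-! ### even modulus -/

theorem exY1 (e f : ℤ) (he : 1 ≤ e) (h2 : 4 * e ≤ 2 * f) (h4 : 2 * e ≤ 2 * f - 4) :
    ∃ y : ℤ, y % 2 = 1 ∧ 0 < y ∧ 2 * f ≤ 2 * e * y ∧ (2 * e + 1) * y ≤ 4 * f := by
  -- f = e q + s
  obtain ⟨q, s, hqs, hs0, hse⟩ : ∃ q s : ℤ, f = e * q + s ∧ 0 ≤ s ∧ s < e :=
    ⟨f / e, f % e, (Int.mul_ediv_add_emod f e).symm, Int.emod_nonneg _ (by omega),
      Int.emod_lt_of_pos _ (by omega)⟩
  have hq2 : 2 ≤ q := by
    by_contra hcon
    have : q ≤ 1 := by omega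
    nlinarith
  rcases hs0.eq_or_lt with hs | hs
  · subst hs
    rcases Int.emod_two_eq_zero_or_one q with hq | hq
    · refine ⟨q + 1, by omega, by omega, by nlinarith, ?_⟩
      have h5 : (2 * e - 1) * (q - 1) ≥ 2 := by
        by_cases he2 : 2 ≤ e
        · nlinarith
        · have : e = 1 := by omega
          subst this
          have : 3 ≤ q := by
            by_contra hcon
            have : q = 2 := by omega
            subst this
            omega
          omega
      nlinarith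
    · exact ⟨q, hq, by omega, by nlinarith, by nlinarith⟩
  · rcases Int.emod_two_eq_zero_or_one q with hq | hq
    · refine ⟨q + 1, by omega, by omega, by nlinarith, ?_⟩
      have h5 : 0 ≤ (2 * e - 1) * (q - 1) := mul_nonneg (by omega) (by omega)
      nlinarith
    · have hq3 : 3 ≤ q := by omega
      refine ⟨q + 2, by omega, by omega, by nlinarith, ?_⟩
      have h5 : 0 ≤ (2 * e - 1) * (q - 3) := mul_nonneg (by omega) (by omega)
      nlinarith

theorem exY2 (e f : ℤ) (he : 2 ≤ e) (h2 : 4 * e + 2 ≤ 2 * f) :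
    ∃ y : ℤ, y % 2 = 1 ∧ 0 < y ∧ 2 * f ≤ (2 * e - 1) * y ∧ (2 * e) * y ≤ 4 * f := by
  obtain ⟨q, s, hqs, hs0, hse⟩ : ∃ q s : ℤ, 2 * f = (2 * e - 1) * q + s ∧ 0 ≤ s ∧ s < 2 * e - 1 :=
    ⟨2 * f / (2 * e - 1), 2 * f % (2 * e - 1), (Int.mul_ediv_add_emod _ _).symm,
      Int.emod_nonneg _ (by omega), Int.emod_lt_of_pos _ (by omega)⟩
  have hq2 : 2 ≤ q := by
    by_contra hcon
    have : q ≤ 1 := by omega
    nlinarith
  have hpar : (q + s) % 2 = 0 := by
    have : q + s = 2 * (f + q - e * q) := by linarith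
    omega
  rcases Int.emod_two_eq_zero_or_one q with hq | hq
  · refine ⟨q + 1, by omega, by omega, by nlinarith, ?_⟩
    have h5 : 0 ≤ (2 * e - 4) * (q - 1) := mul_nonneg (by omega) (by omega)
    nlinarith
  · have hq3 : 3 ≤ q := by omega
    have hs1 : 1 ≤ s := by omega
    refine ⟨q + 2, by omega, by omega, by nlinarith, ?_⟩
    have h5 : 0 ≤ (2 * e - 4) * (q - 3) := mul_nonneg (by omega) (by omega)
    nlinarith

/-- `m` even, exponents `1, b` with `b` even. -/
theorem base_even (m b : ℤ) (hm : 0 < m) (hme : m % 2 = 0) (hbe : b % 2 = 0) (hb0 : 0 < b)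
    (hb : b < 2 * m) (hb2 : b ≠ m + 2) : Good m 1 b := by
  unfold Good
  obtain ⟨f, hf⟩ : ∃ f, m = 2 * f := ⟨m / 2, by omega⟩
  obtain ⟨e, he⟩ : ∃ e, b = 2 * e := ⟨b / 2, by omega⟩
  rcases le_or_gt b m with hbm | hbm
  · refine ⟨m - 1, by omega, ?_⟩
    have e1 : (m - 1) * 1 % (2 * m) = m - 1 := emod_of 0 (by ring) (by omega) (by omega)
    have e2 : (m - 1) * b % (2 * m) = 2 * m - b :=
      emod_of (e - 1) (by rw [he]; ring) (by omega) (by omega)
    rw [e1, e2]
    left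
    omega
  · -- β = 2m - b
    obtain ⟨β, hβ⟩ : ∃ β, β = 2 * m - b := ⟨_, rfl⟩
    have hβ1 : 2 ≤ β := by omega
    have hβ2 : β ≤ m - 4 := by omega
    by_cases hsmall : 2 * β ≤ m
    · obtain ⟨y, hy1, hy0, hy2, hy3⟩ := exY1 (β / 2) f (by omega) (by omega) (by omega)
      have hβe : β = 2 * (β / 2) := by omega
      set e' := β / 2 with he'
      refine ⟨m - y, by omega, ?_⟩
      have hym : y ≤ m := by nlinarith
      have e1 : (m - y) * 1 % (2 * m) = m - y := emod_of 0 (by ring) (by omega) (by omega)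
      have hb' : b = 2 * m - 2 * e' := by omega
      have e2 : (m - y) * b % (2 * m) = 2 * e' * y := by
        apply emod_of (m - y - e')
        · rw [hb']; ring
        · positivity
        · nlinarith
      rw [e1, e2]
      left
      refine ⟨by omega, by nlinarith, by nlinarith⟩
    · obtain ⟨ρ, hρ⟩ : ∃ ρ, ρ = m - β := ⟨_, rfl⟩
      obtain ⟨y, hy1, hy0, hy2, hy3⟩ := exY2 (ρ / 2) f (by omega) (by omega)
      have hρe : ρ = 2 * (ρ / 2) := by omega
      set e' := ρ / 2 with he'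
      refine ⟨m - y, by omega, ?_⟩
      have hym : y ≤ m := by nlinarith
      have e1 : (m - y) * 1 % (2 * m) = m - y := emod_of 0 (by ring) (by omega) (by omega)
      have hb' : b = m + 2 * e' := by omega
      have e2 : (m - y) * b % (2 * m) = 3 * m - 2 * e' * y := by
        obtain ⟨j, hj⟩ : ∃ j, m + 2 * e' - y - 3 = 2 * j :=
          ⟨(m + 2 * e' - y - 3) / 2, by omega⟩
        apply emod_of j
        · have h8 : 2 * m * j = m * (m + 2 * e' - y - 3) := by
            rw [hj]; ring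
          rw [h8, hb']; ring
        · nlinarith
        · nlinarith
      rw [e1, e2]
      left
      refine ⟨by omega, by nlinarith, by nlinarith⟩

/-- changing to an invertible multiplier -/
theorem Good.unscale {m a b ab b' : ℤ} (hab : ab % 2 = 1)
    (h1 : (2 * m) ∣ (ab * a - 1)) (h2 : (2 * m) ∣ (ab * b - b')) (h : Good m 1 b') :
    Good m a b := by
  obtain ⟨r, hr, h⟩ := h
  refine ⟨r * ab, ?_, ?_⟩
  · rw [Int.mul_emod, hr, hab]; rfl
  have e1 : r * ab * a % (2 * m) = r * 1 % (2 * m) := by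
    apply Int.emod_eq_emod_iff_emod_sub_eq_zero.2
    apply Int.emod_eq_zero_of_dvd
    have : r * ab * a - r * 1 = r * (ab * a - 1) := by ring
    rw [this]
    exact Dvd.dvd.mul_left h1 r
  have e2 : r * ab * b % (2 * m) = r * b' % (2 * m) := by
    apply Int.emod_eq_emod_iff_emod_sub_eq_zero.2
    apply Int.emod_eq_zero_of_dvd
    have : r * ab * b - r * b' = r * (ab * b - b') := by ring
    rw [this]
    exact Dvd.dvd.mul_left h2 r
  rw [e1, e2]
  exact h

theorem exists_coprime_inv {a n : ℤ} (h : IsCoprime a n) : ∃ b : ℤ, n ∣ b * a - 1 := by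
  obtain ⟨u, v, huv⟩ := h
  exact ⟨u, -v, by linarith⟩

theorem odd_of_dvd {x y : ℤ} (h : x ∣ y) (hy : y % 2 = 1) : x % 2 = 1 := by
  obtain ⟨c, rfl⟩ := h
  rcases Int.emod_two_eq_zero_or_one x with h | h
  · rw [Int.mul_emod, h] at hy
    simp at hy
  · exact h

/-- coprime case, even modulus -/
theorem good_even_coprime (m a b : ℤ) (hm : 0 < m) (hme : m % 2 = 0) (hao : a % 2 = 1)
    (hbe : b % 2 = 0) (h1 : ¬ 2 * m ∣ b) (h2 : ¬ 2 * m ∣ b - 2 * a - m)
    (hco : ∀ g : ℤ, 0 < g → g ∣ a → g ∣ b → g ∣ m → g = 1) : Good m a b := by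
  obtain ⟨γ, hγ⟩ : ∃ γ : ℤ, γ = (Int.gcd a m : ℤ) := ⟨_, rfl⟩
  have hγa : γ ∣ a := hγ ▸ Int.gcd_dvd_left _ _
  have hγm : γ ∣ m := hγ ▸ Int.gcd_dvd_right _ _
  have hγ0 : 0 < γ := by
    rw [hγ]
    exact_mod_cast Int.gcd_pos_of_ne_zero_right _ (by omega)
  have hγo : γ % 2 = 1 := odd_of_dvd hγa hao
  rcases eq_or_ne γ 1 with hγ1 | hγ1
  · -- `a` is invertible
    have hc1 : IsCoprime a m := by
      rw [Int.isCoprime_iff_gcd_eq_one]
      exact_mod_cast hγ.symm.trans hγ1
    have hc2 : IsCoprime a 2 := ⟨1, -(a / 2), by omega⟩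
    have hc : IsCoprime a (2 * m) := hc2.mul_right hc1
    obtain ⟨ab, hab⟩ := exists_coprime_inv hc
    have habo : ab % 2 = 1 := by
      obtain ⟨w, hw⟩ := hab
      have : ab * a = 2 * (m * w) + 1 := by linarith
      exact odd_of_dvd (Dvd.intro _ rfl) (by rw [this]; omega)
    obtain ⟨b', hb'⟩ : ∃ b', b' = (ab * b) % (2 * m) := ⟨_, rfl⟩
    have hb'1 : 0 ≤ b' := hb' ▸ Int.emod_nonneg _ (by omega)
    have hb'2 : b' < 2 * m := hb' ▸ Int.emod_lt_of_pos _ (by omega)
    have hb'd : 2 * m ∣ ab * b - b' := by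
      rw [hb']; exact Int.dvd_self_sub_emod
    have hb'e : b' % 2 = 0 := by
      obtain ⟨w, hw⟩ := hb'd
      obtain ⟨c, hc⟩ : ∃ c, b = 2 * c := ⟨b / 2, by omega⟩
      have : b' = 2 * (ab * c - m * w) := by rw [hc] at hw; linarith
      omega
    have hmod : ∀ z : ℤ, 2 * m ∣ z → 2 * m ∣ a * z := fun z hz => Dvd.dvd.mul_left hz a
    apply Good.unscale habo hab hb'd
    apply base_even m b' hm hme hb'e _ hb'2
    · intro hcon
      apply h2
      have h3 := hmod _ hb'd
      obtain ⟨c, hc⟩ : ∃ c, a - 1 = 2 * c := ⟨(a - 1) / 2, by omega⟩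
      have h4 : b - 2 * a - m = a * (ab * b - b') - (ab * a - 1) * b + 2 * m * c := by
        have h5 : 2 * m * c = m * (a - 1) := by rw [hc]; ring
        rw [h5, hcon]; ring
      rw [h4]
      exact dvd_add (dvd_sub h3 (Dvd.dvd.mul_right hab b)) (Dvd.intro _ rfl)
    · rcases hb'1.eq_or_lt with h0 | h0
      · exfalso
        apply h1
        have h3 := hmod _ hb'd
        have h4 : b = a * (ab * b - b') - (ab * a - 1) * b := by rw [← h0]; ring
        rw [h4]
        exact dvd_sub h3 (Dvd.dvd.mul_right hab b)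
      · exact h0
  · -- `γ ≥ 3`
    have hγ3 : 3 ≤ γ := by omega
    obtain ⟨μ, hμ⟩ := hγm
    obtain ⟨α, hα⟩ := hγa
    have hμ0 : 0 < μ := by
      by_contra hcon
      have : μ ≤ 0 := by omega
      nlinarith
    have hμe : μ % 2 = 0 := by
      rcases Int.emod_two_eq_zero_or_one μ with h | h
      · exact h
      · rw [hμ, Int.mul_emod, hγo, h] at hme
        simp at hme
    have hαo : α % 2 = 1 := odd_of_dvd (Dvd.intro_left γ hα.symm) hao
    have hcαμ : IsCoprime α μ := by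
      rw [Int.isCoprime_iff_gcd_eq_one]
      have h3 : γ * (Int.gcd α μ : ℤ) ∣ γ := by
        conv_rhs => rw [hγ]
        apply Int.dvd_coe_gcd
        · rw [hα]; exact mul_dvd_mul_left _ (Int.gcd_dvd_left _ _)
        · rw [hμ]; exact mul_dvd_mul_left _ (Int.gcd_dvd_right _ _)
      have h4 := Int.le_of_dvd hγ0 h3
      have h5 : 0 < (Int.gcd α μ : ℤ) := by
        exact_mod_cast Int.gcd_pos_of_ne_zero_right _ (by omega)
      have h6 : (Int.gcd α μ : ℤ) ≤ 1 := by
        by_contra hcon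
        have : 2 ≤ (Int.gcd α μ : ℤ) := by omega
        nlinarith
      omega
    have hcα2 : IsCoprime α 2 := ⟨1, -(α / 2), by omega⟩
    obtain ⟨ab, hab⟩ := exists_coprime_inv (hcα2.mul_right hcαμ)
    have habo : ab % 2 = 1 := by
      obtain ⟨w, hw⟩ := hab
      have : ab * α = 2 * (μ * w) + 1 := by linarith
      exact odd_of_dvd (Dvd.intro _ rfl) (by rw [this]; omega)
    have hcbγ : IsCoprime b γ := by
      rw [Int.isCoprime_iff_gcd_eq_one]
      have h := hco (Int.gcd b γ) (by exact_mod_cast Int.gcd_pos_of_ne_zero_right _ (by omega))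
        ((Int.gcd_dvd_right _ _).trans ⟨α, hα⟩) (Int.gcd_dvd_left _ _)
        ((Int.gcd_dvd_right _ _).trans ⟨μ, hμ⟩)
      exact_mod_cast h
    obtain ⟨bb, hbb⟩ := exists_coprime_inv hcbγ
    obtain ⟨r0, hr0⟩ : ∃ r0, r0 = ab * (μ - 1) := ⟨_, rfl⟩
    have hr0o : r0 % 2 = 1 := by
      rw [hr0, Int.mul_emod, habo]; omega
    obtain ⟨z, hz⟩ : ∃ z, z = m + (r0 * b - m) % (2 * μ) := ⟨_, rfl⟩
    have hz1 : m ≤ z := by
      have := Int.emod_nonneg (r0 * b - m) (b := 2 * μ) (by omega)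
      omega
    have hz2 : z ≤ m + 2 * μ - 1 := by
      have := Int.emod_lt_of_pos (r0 * b - m) (b := 2 * μ) (by omega)
      omega
    obtain ⟨w, hw⟩ : ∃ w, z - r0 * b = 2 * μ * w := by
      have h := Int.dvd_self_sub_emod (x := r0 * b - m) (m := 2 * μ)
      obtain ⟨w, hw⟩ := h
      exact ⟨-w, by rw [hz]; linarith⟩
    obtain ⟨x1, hx1⟩ := hbb
    obtain ⟨x2, hx2⟩ := hab
    refine ⟨r0 + 2 * μ * (bb * w), by
      rw [show 2 * μ * (bb * w) = 2 * (μ * (bb * w)) by ring]; omega, ?_⟩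
    have e1 : (r0 + 2 * μ * (bb * w)) * a % (2 * m) = m - γ := by
      apply emod_of (α * (bb * w) + (μ - 1) * x2)
      · rw [hr0, hα, hμ]
        have : ab * α = 1 + 2 * μ * x2 := by linarith
        calc (ab * (μ - 1) + 2 * μ * (bb * w)) * (γ * α)
            = γ * (μ - 1) * (ab * α) + 2 * μ * (bb * w) * (γ * α) := by ring
          _ = _ := by rw [this]; ring
      · nlinarith
      · omega
    have hub : z ≤ 2 * m - γ := by
      have hμ2 : 2 ≤ μ := by omega
      have h7 : 0 ≤ (γ - 3) * (μ - 2) := mul_nonneg (by omega) (by omega)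
      have h8 : (γ - 3) * (μ - 2) = m - 2 * γ - 3 * μ + 6 := by rw [hμ]; ring
      omega
    have e2 : (r0 + 2 * μ * (bb * w)) * b % (2 * m) = z := by
      apply emod_of (x1 * w)
      · have h3 : bb * b = 1 + γ * x1 := by linarith
        have h4 : r0 * b = z - 2 * μ * w := by linarith
        calc (r0 + 2 * μ * (bb * w)) * b = r0 * b + 2 * μ * w * (bb * b) := by ring
          _ = _ := by rw [h3, h4, hμ]; ring
      · omega
      · omega
    rw [e1, e2]
    left
    omega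

/-- **Even modulus.** -/
theorem good_even (m a b : ℤ) (hm : 0 < m) (hme : m % 2 = 0) (hao : a % 2 = 1)
    (hbe : b % 2 = 0) (h1 : ¬ 2 * m ∣ b) (h2 : ¬ 2 * m ∣ b - 2 * a - m) : Good m a b := by
  obtain ⟨g, hg⟩ : ∃ g : ℤ, g = (Int.gcd (Int.gcd a b) m : ℤ) := ⟨_, rfl⟩
  have hgm : g ∣ m := hg ▸ Int.gcd_dvd_right _ _
  have hgab : g ∣ (Int.gcd a b : ℤ) := hg ▸ Int.gcd_dvd_left _ _
  have hga : g ∣ a := hgab.trans (Int.gcd_dvd_left _ _)
  have hgb : g ∣ b := hgab.trans (Int.gcd_dvd_right _ _)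
  have hg0 : 0 < g := by
    rw [hg]
    exact_mod_cast Int.gcd_pos_of_ne_zero_right _ (by omega)
  have hmax : ∀ h : ℤ, h ∣ a → h ∣ b → h ∣ m → h ∣ g := by
    intro h ha hb hm
    rw [hg]
    exact Int.dvd_coe_gcd (Int.dvd_coe_gcd ha hb) hm
  obtain ⟨m', rfl⟩ := hgm
  obtain ⟨a', rfl⟩ := hga
  obtain ⟨b', rfl⟩ := hgb
  have hgo : g % 2 = 1 := odd_of_dvd (Dvd.intro _ rfl) hao
  have hpar : ∀ x : ℤ, (g * x) % 2 = x % 2 := by
    intro x
    rw [Int.mul_emod, hgo]
    omega
  rw [hpar] at hme hao hbe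
  apply Good.scale hg0
  apply good_even_coprime m' a' b' _ hme hao hbe
  · intro h
    apply h1
    obtain ⟨c, hc⟩ := h
    exact ⟨c, by rw [hc]; ring⟩
  · intro h
    apply h2
    obtain ⟨c, hc⟩ := h
    refine ⟨c, ?_⟩
    calc g * b' - 2 * (g * a') - g * m' = g * (b' - 2 * a' - m') := by ring
      _ = _ := by rw [hc]; ring
  · intro h hh ha hb hm'
    have h3 := hmax (g * h) (mul_dvd_mul_left g ha) (mul_dvd_mul_left g hb)
      (mul_dvd_mul_left g hm')
    have h4 := Int.le_of_dvd hg0 h3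
    have : h ≤ 1 := by
      by_contra hcon
      have : 2 ≤ h := by omega
      nlinarith
    omega
  · by_contra hcon
    have : m' ≤ 0 := by omega
    nlinarith

/-! ### odd modulus -/

/-- the circle of odd length `n` -/
def Arc' (n x y : ℤ) : Prop :=
  (2 * x ≤ n ∧ n ≤ 2 * y ∧ 2 * y ≤ 2 * x + n) ∨ (2 * y ≤ n ∧ n ≤ 2 * x ∧ 2 * x ≤ 2 * y + n)

theorem good_of_arc' (n U V r : ℤ) (hn : n % 2 = 1)
    (h : Arc' n ((r * U) % n) ((r * V) % n)) : Good n (2 * U) (2 * V) := by
  have key : ∀ r : ℤ, Arc' n ((r * U) % n) ((r * V) % n) → r % 2 = 1 → Good n (2 * U) (2 * V) := by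
    intro r h hr
    refine ⟨r, hr, ?_⟩
    have e1 : r * (2 * U) % (2 * n) = 2 * (r * U % n) := by
      rw [show r * (2 * U) = 2 * (r * U) by ring, Int.mul_emod_mul_of_pos _ _ (by norm_num)]
    have e2 : r * (2 * V) % (2 * n) = 2 * (r * V % n) := by
      rw [show r * (2 * V) = 2 * (r * V) by ring, Int.mul_emod_mul_of_pos _ _ (by norm_num)]
    rw [e1, e2]
    exact h
  rcases Int.emod_two_eq_zero_or_one r with hr | hr
  · apply key (r + n) _ (by omega)
    have e1 : (r + n) * U % n = r * U % n := by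
      rw [add_mul, Int.add_mul_emod_self_left]
    have e2 : (r + n) * V % n = r * V % n := by
      rw [add_mul, Int.add_mul_emod_self_left]
    rwa [e1, e2]
  · exact key r h hr

/-- small odd `d`; first alternative with strict inequalities. -/
theorem base_odd_small (n d : ℤ) (hn : n % 2 = 1) (hd : d % 2 = 1) (hd3 : 3 ≤ d)
    (hdn : 2 * d ≤ n + 1) (h7 : ¬ (n = 7 ∧ d = 3)) :
    ∃ r y t : ℤ, 0 < r ∧ 2 * r < n ∧ r * d = y + n * t ∧ n < 2 * y ∧ 2 * y < 2 * r + n + 1 := by
  by_cases h1 : 2 * d = n + 1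
  · exact ⟨1, d, 0, by omega, by omega, by ring, by omega, by omega⟩
  by_cases h2 : 2 * d = n - 1
  · have hn9 : 9 ≤ n := by omega
    obtain ⟨s, hs⟩ : ∃ s, s = (n + 5) / 6 := ⟨_, rfl⟩
    refine ⟨2 * s, n - s, s - 1, by omega, by omega, ?_, by omega, by omega⟩
    have : 2 * s * d = s * (n - 1) := by rw [← h2]; ring
    rw [this]; ring
  obtain ⟨j, hj⟩ : ∃ j, d = 2 * j + 3 := ⟨(d - 3) / 2, by omega⟩
  -- it suffices to find `r`
  have key : ∀ r : ℤ, 0 < r → (d - 2) * n < 2 * d * r + 1 → 2 * (d - 1) * r < (d - 2) * n + 1 →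
      ∃ r y t : ℤ, 0 < r ∧ 2 * r < n ∧ r * d = y + n * t ∧ n < 2 * y ∧
        2 * y < 2 * r + n + 1 := by
    intro r hr hr1 hr2
    have e1 : 2 * (r * d - n * j) = 2 * d * r - (d - 2) * n + n := by rw [hj]; ring
    have h3 : n ≤ 2 * (r * d - n * j) := by omega
    have e2 : 2 * (r * d - n * j) - 2 * r = 2 * (d - 1) * r - (d - 2) * n + n := by rw [hj]; ring
    refine ⟨r, r * d - n * j, j, hr, ?_, by ring, by omega, by omega⟩
    by_contra hcon
    have h4 : n ≤ 2 * r := by omega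
    have h5 : (d - 1) * n ≤ (d - 1) * (2 * r) := mul_le_mul_of_nonneg_left h4 (by omega)
    nlinarith
  by_cases hd3' : d = 3
  · subst hd3'
    by_cases hn13 : 13 ≤ n
    · apply key ((n + 5) / 6) <;> omega
    · have : n = 9 ∨ n = 11 := by omega
      rcases this with rfl | rfl
      · apply key 2 <;> omega
      · apply key 2 <;> omega
  by_cases hd5 : d = 5
  · subst hd5
    by_cases hn15 : 15 ≤ n
    · apply key ((3 * n + 9) / 10) <;> omega
    · have : n = 13 := by omega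
      subst this
      apply key 4 <;> omega
  have hd7 : 7 ≤ d := by omega
  have hn2 : 2 * d + 3 ≤ n := by omega
  obtain ⟨q, s, hqs, hs0, hs1⟩ : ∃ q s : ℤ, (d - 2) * n + 2 * d - 1 = 2 * d * q + s ∧ 0 ≤ s ∧
      s < 2 * d :=
    ⟨((d - 2) * n + 2 * d - 1) / (2 * d), ((d - 2) * n + 2 * d - 1) % (2 * d),
      (Int.mul_ediv_add_emod _ _).symm, Int.emod_nonneg _ (by omega),
      Int.emod_lt_of_pos _ (by omega)⟩
  have hqd : d ≤ q := by
    by_contra hcon
    have h3 : q ≤ d - 1 := by omega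
    have h4 : 2 * d * q ≤ 2 * d * (d - 1) := mul_le_mul_of_nonneg_left h3 (by omega)
    have h5 : (d - 2) * (2 * d + 3) ≤ (d - 2) * n := mul_le_mul_of_nonneg_left hn2 (by omega)
    nlinarith
  apply key q (by omega)
  · omega
  · have : 2 * (d - 1) * q = 2 * d * q - 2 * q := by ring
    omega

theorem base_odd (n d : ℤ) (hn : n % 2 = 1) (hd2 : 2 ≤ d) (hdn : d ≤ n - 1)
    (h7 : ¬ (n = 7 ∧ (d = 3 ∨ d = 5))) : ∃ r : ℤ, Arc' n ((r * 1) % n) ((r * d) % n) := by
  rcases Int.emod_two_eq_zero_or_one d with hd | hd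
  · obtain ⟨e, he⟩ : ∃ e, d = 2 * e := ⟨d / 2, by omega⟩
    obtain ⟨f, hf⟩ : ∃ f, n = 2 * f + 1 := ⟨n / 2, by omega⟩
    refine ⟨f, ?_⟩
    have e1 : f * 1 % n = f := emod_of 0 (by ring) (by omega) (by omega)
    have e2 : f * d % n = n - e := by
      apply emod_of (e - 1)
      · rw [hf, he]; ring
      · omega
      · omega
    rw [e1, e2]
    left
    omega
  · rcases le_or_gt (2 * d) (n + 1) with hs | hs
    · obtain ⟨r, y, t, hr, hrn, hrd, hy1, hy2⟩ := base_odd_small n d hn hd (by omega) hs (by omega)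
      refine ⟨r, ?_⟩
      have e1 : r * 1 % n = r := emod_of 0 (by ring) (by omega) (by omega)
      have e2 : r * d % n = y := emod_of t hrd (by omega) (by omega)
      rw [e1, e2]
      left
      omega
    · obtain ⟨r, y, t, hr, hrn, hrd, hy1, hy2⟩ := base_odd_small n (n + 1 - d) hn (by omega)
        (by omega) (by omega) (by omega)
      refine ⟨r, ?_⟩
      have e1 : r * 1 % n = r := emod_of 0 (by ring) (by omega) (by omega)
      have e2 : r * d % n = n + r - y := by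
        apply emod_of (r - t - 1)
        · have : r * d = r * n + r - r * (n + 1 - d) := by ring
          rw [this, hrd]; ring
        · omega
        · omega
      rw [e1, e2]
      left
      omega

theorem good_odd_coprime (n U V : ℤ) (hn0 : 0 < n) (hn : n % 2 = 1) (hU : ¬ n ∣ U) (hV : ¬ n ∣ V)
    (hUV : ¬ n ∣ U - V) (hF : ¬ (n = 7 ∧ (n ∣ V - 3 * U ∨ n ∣ V - 5 * U)))
    (hco : ∀ g : ℤ, 0 < g → g ∣ U → g ∣ V → g ∣ n → g = 1) : Good n (2 * U) (2 * V) := by
  obtain ⟨γ, hγ⟩ : ∃ γ : ℤ, γ = (Int.gcd U n : ℤ) := ⟨_, rfl⟩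
  have hγU : γ ∣ U := hγ ▸ Int.gcd_dvd_left _ _
  have hγn : γ ∣ n := hγ ▸ Int.gcd_dvd_right _ _
  have hγ0 : 0 < γ := by
    rw [hγ]
    exact_mod_cast Int.gcd_pos_of_ne_zero_right _ (by omega)
  have hγo : γ % 2 = 1 := odd_of_dvd hγn hn
  rcases eq_or_ne γ 1 with hγ1 | hγ1
  · have hc : IsCoprime U n := by
      rw [Int.isCoprime_iff_gcd_eq_one]
      exact_mod_cast hγ.symm.trans hγ1
    obtain ⟨ub, hub⟩ := exists_coprime_inv hc
    obtain ⟨d, hd⟩ : ∃ d, d = (ub * V) % n := ⟨_, rfl⟩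
    have hd0 : 0 ≤ d := hd ▸ Int.emod_nonneg _ (by omega)
    have hd1 : d < n := hd ▸ Int.emod_lt_of_pos _ (by omega)
    have hdd : n ∣ ub * V - d := by rw [hd]; exact Int.dvd_self_sub_emod
    have hrel : ∀ j : ℤ, d = j → n ∣ V - j * U := by
      intro j hj
      subst hj
      have h4 : V - d * U = U * (ub * V - d) - (ub * U - 1) * V := by ring
      rw [h4]
      exact dvd_sub (Dvd.dvd.mul_left hdd U) (Dvd.dvd.mul_right hub V)
    have hd2 : 2 ≤ d := by
      by_contra hcon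
      have : d = 0 ∨ d = 1 := by omega
      rcases this with h | h
      · apply hV
        have := hrel 0 h
        rwa [zero_mul, sub_zero] at this
      · apply hUV
        have := hrel 1 h
        rw [one_mul] at this
        rwa [← dvd_neg, neg_sub] at this
    obtain ⟨r, hr⟩ := base_odd n d hn hd2 (by omega) (by
      rintro ⟨h7, h35⟩
      apply hF
      refine ⟨h7, ?_⟩
      rcases h35 with h | h
      · left; exact hrel 3 h
      · right; exact hrel 5 h)
    apply good_of_arc' n U V (r * ub) hn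
    have e1 : r * ub * U % n = r * 1 % n := by
      apply Int.emod_eq_emod_iff_emod_sub_eq_zero.2
      apply Int.emod_eq_zero_of_dvd
      have : r * ub * U - r * 1 = r * (ub * U - 1) := by ring
      rw [this]
      exact Dvd.dvd.mul_left hub r
    have e2 : r * ub * V % n = r * d % n := by
      apply Int.emod_eq_emod_iff_emod_sub_eq_zero.2
      apply Int.emod_eq_zero_of_dvd
      have : r * ub * V - r * d = r * (ub * V - d) := by ring
      rw [this]
      exact Dvd.dvd.mul_left hdd r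
    rw [e1, e2]
    exact hr
  · have hγ3 : 3 ≤ γ := by omega
    obtain ⟨ν, hν⟩ := hγn
    obtain ⟨α, hα⟩ := hγU
    have hν0 : 0 < ν := by
      by_contra hcon
      have : ν ≤ 0 := by omega
      nlinarith
    have hνo : ν % 2 = 1 := odd_of_dvd (Dvd.intro_left γ hν.symm) hn
    have hν3 : 3 ≤ ν := by
      by_contra hcon
      have : ν = 1 := by omega
      apply hU
      rw [hν, this, mul_one, hα]
      exact Dvd.intro _ rfl
    have hcαν : IsCoprime α ν := by
      rw [Int.isCoprime_iff_gcd_eq_one]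
      have h3 : γ * (Int.gcd α ν : ℤ) ∣ γ := by
        conv_rhs => rw [hγ]
        apply Int.dvd_coe_gcd
        · rw [hα]; exact mul_dvd_mul_left _ (Int.gcd_dvd_left _ _)
        · rw [hν]; exact mul_dvd_mul_left _ (Int.gcd_dvd_right _ _)
      have h4 := Int.le_of_dvd hγ0 h3
      have h5 : 0 < (Int.gcd α ν : ℤ) := by
        exact_mod_cast Int.gcd_pos_of_ne_zero_right _ (by omega)
      have h6 : (Int.gcd α ν : ℤ) ≤ 1 := by
        by_contra hcon
        have : 2 ≤ (Int.gcd α ν : ℤ) := by omega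
        nlinarith
      omega
    obtain ⟨ab, hab⟩ := exists_coprime_inv hcαν
    have hcVγ : IsCoprime V γ := by
      rw [Int.isCoprime_iff_gcd_eq_one]
      have h := hco (Int.gcd V γ) (by exact_mod_cast Int.gcd_pos_of_ne_zero_right _ (by omega))
        ((Int.gcd_dvd_right _ _).trans ⟨α, hα⟩) (Int.gcd_dvd_left _ _)
        ((Int.gcd_dvd_right _ _).trans ⟨ν, hν⟩)
      exact_mod_cast h
    obtain ⟨bb, hbb⟩ := exists_coprime_inv hcVγ
    obtain ⟨h, hh⟩ : ∃ h, ν = 2 * h + 1 := ⟨ν / 2, by omega⟩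
    obtain ⟨f, hf⟩ : ∃ f, n = 2 * f + 1 := ⟨n / 2, by omega⟩
    obtain ⟨r0, hr0⟩ : ∃ r0, r0 = ab * h := ⟨_, rfl⟩
    obtain ⟨z, hz⟩ : ∃ z, z = (f + 1) + (r0 * V - (f + 1)) % ν := ⟨_, rfl⟩
    have hz1 : f + 1 ≤ z := by
      have := Int.emod_nonneg (r0 * V - (f + 1)) (b := ν) (by omega)
      omega
    have hz2 : z ≤ f + ν := by
      have := Int.emod_lt_of_pos (r0 * V - (f + 1)) (b := ν) (by omega)
      omega
    obtain ⟨w, hw⟩ : ∃ w, z - r0 * V = ν * w := by
      obtain ⟨w, hw⟩ := Int.dvd_self_sub_emod (x := r0 * V - (f + 1)) (m := ν)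
      exact ⟨-w, by rw [hz]; linarith⟩
    obtain ⟨x1, hx1⟩ := hbb
    obtain ⟨x2, hx2⟩ := hab
    apply good_of_arc' n U V (r0 + ν * (bb * w)) hn
    have hγh : γ * (2 * h + 1) = 2 * f + 1 := by rw [← hh, ← hν, hf]
    have e1 : (r0 + ν * (bb * w)) * U % n = γ * h := by
      apply emod_of (α * (bb * w) + h * x2)
      · rw [hr0, hα, hν]
        have : ab * α = 1 + ν * x2 := by linarith
        calc (ab * h + ν * (bb * w)) * (γ * α)
            = γ * h * (ab * α) + ν * (bb * w) * (γ * α) := by ring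
          _ = _ := by rw [this]; ring
      · nlinarith
      · nlinarith
    have hub : 2 * z ≤ 2 * (γ * h) + n := by
      have h7 : 0 ≤ (γ - 3) * (h - 1) := mul_nonneg (by omega) (by omega)
      have h8 : (γ - 3) * (h - 1) = γ * h - γ - 3 * h + 3 := by ring
      have h9 : γ * (2 * h + 1) = 2 * (γ * h) + γ := by ring
      omega
    have hzn : z < n := by
      have h9 : γ * (2 * h + 1) = 2 * (γ * h) + γ := by ring
      omega
    have e2 : (r0 + ν * (bb * w)) * V % n = z := by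
      apply emod_of (x1 * w)
      · have h3 : bb * V = 1 + γ * x1 := by linarith
        have h4 : r0 * V = z - ν * w := by linarith
        calc (r0 + ν * (bb * w)) * V = r0 * V + ν * w * (bb * V) := by ring
          _ = _ := by rw [h3, h4, hν]; ring
      · omega
      · omega
    rw [e1, e2]
    left
    have h9 : γ * (2 * h + 1) = 2 * (γ * h) + γ := by ring
    omega

/-- **Odd modulus.** -/
theorem good_odd (n U V : ℤ) (hn0 : 0 < n) (hn : n % 2 = 1) (hU : ¬ n ∣ U) (hV : ¬ n ∣ V)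
    (hUV : ¬ n ∣ U - V)
    (hF : ¬ ∃ g, 0 < g ∧ n = 7 * g ∧ g ∣ U ∧ g ∣ V ∧ (n ∣ V - 3 * U ∨ n ∣ V - 5 * U)) :
    Good n (2 * U) (2 * V) := by
  obtain ⟨g, hg⟩ : ∃ g : ℤ, g = (Int.gcd (Int.gcd U V) n : ℤ) := ⟨_, rfl⟩
  have hgm : g ∣ n := hg ▸ Int.gcd_dvd_right _ _
  have hgab : g ∣ (Int.gcd U V : ℤ) := hg ▸ Int.gcd_dvd_left _ _
  have hga : g ∣ U := hgab.trans (Int.gcd_dvd_left _ _)
  have hgb : g ∣ V := hgab.trans (Int.gcd_dvd_right _ _)
  have hg0 : 0 < g := by
    rw [hg]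
    exact_mod_cast Int.gcd_pos_of_ne_zero_right _ (by omega)
  have hmax : ∀ h : ℤ, h ∣ U → h ∣ V → h ∣ n → h ∣ g := by
    intro h ha hb hm
    rw [hg]
    exact Int.dvd_coe_gcd (Int.dvd_coe_gcd ha hb) hm
  obtain ⟨n', rfl⟩ := hgm
  obtain ⟨U', rfl⟩ := hga
  obtain ⟨V', rfl⟩ := hgb
  have hn' : n' % 2 = 1 := odd_of_dvd (Dvd.intro_left _ rfl) hn
  have hn'0 : 0 < n' := by
    by_contra hcon
    have : n' ≤ 0 := by omega
    nlinarith
  rw [show 2 * (g * U') = g * (2 * U') by ring, show 2 * (g * V') = g * (2 * V') by ring]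
  apply Good.scale hg0
  apply good_odd_coprime n' U' V' hn'0 hn'
  · intro h; exact hU (mul_dvd_mul_left g h)
  · intro h; exact hV (mul_dvd_mul_left g h)
  · intro h
    apply hUV
    rw [← mul_sub]
    exact mul_dvd_mul_left g h
  · rintro ⟨h7, h⟩
    apply hF
    refine ⟨g, hg0, by rw [h7]; ring, Dvd.intro _ rfl, Dvd.intro _ rfl, ?_⟩
    rcases h with h | h
    · left
      rw [show g * V' - 3 * (g * U') = g * (V' - 3 * U') by ring]
      exact mul_dvd_mul_left g h
    · right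
      rw [show g * V' - 5 * (g * U') = g * (V' - 5 * U') by ring]
      exact mul_dvd_mul_left g h
  · intro h hh ha hb hm'
    have h3 := hmax (g * h) (mul_dvd_mul_left g ha) (mul_dvd_mul_left g hb)
      (mul_dvd_mul_left g hm')
    have h4 := Int.le_of_dvd hg0 h3
    have : h ≤ 1 := by
      by_contra hcon
      have : 2 ≤ h := by omega
      nlinarith
    omega

end Q151.Ships
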