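import Pool.Agent.Q151.Ships.Main

/-!
Periodic sets of integers, their densities, and sets hitting 3-point patterns.
-/

set_option autoImplicit false

namespace Q151.Ships

open Filter Topology

open Classical in
/-- number of elements in `[x, x + L)` -/
noncomputable def cnt (X : Set ℤ) (x : ℤ) (L : ℕ) : ℕ :=
  ((Finset.range L).filter fun i : ℕ => x + (i : ℤ) ∈ X).card

theorem cnt_zero (X : Set ℤ) (x : ℤ) : cnt X x 0 = 0 := by simp [cnt]

theorem cnt_add (X : Set ℤ) (x : ℤ) (L M : ℕ) : cnt X x (L + M) = cnt X x L + cnt X (x + L) M := by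
  classical
  unfold cnt
  rw [Finset.range_eq_Ico, ← Finset.Ico_union_Ico_eq_Ico (Nat.zero_le L) (Nat.le_add_right L M),
    Finset.filter_union, Finset.card_union_of_disjoint]
  · congr 1
    rw [Finset.range_eq_Ico]
    have : Finset.Ico L (L + M) = (Finset.Ico 0 M).image (fun i => i + L) := by
      ext i
      simp only [Finset.mem_Ico, Finset.mem_image]
      constructor
      · intro h; exact ⟨i - L, by omega, by omega⟩
      · rintro ⟨j, hj, rfl⟩; omega
    rw [this, Finset.filter_image, Finset.card_image_of_injective _ (add_left_injective L)]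
    congr 1
    ext i
    simp only [Finset.mem_filter]
    have : x + ((i + L : ℕ) : ℤ) = x + L + i := by push_cast; ring
    rw [this]
    simp
  · apply Finset.disjoint_filter_filter
    exact Finset.Ico_disjoint_Ico_consecutive 0 L (L + M)

/-- `X` has period `P` and `K` elements in each period. -/
def Per (X : Set ℤ) (P K : ℕ) : Prop := 0 < P ∧ (∀ x, x ∈ X ↔ x + P ∈ X) ∧ cnt X 0 P = K

theorem cnt_congr {X : Set ℤ} {x y : ℤ} {L : ℕ} (h : ∀ i : ℤ, x + i ∈ X ↔ y + i ∈ X) :
    cnt X x L = cnt X y L := by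
  classical
  unfold cnt
  congr 1
  ext i
  simp only [Finset.mem_filter, h]

theorem Per.cnt_eq {X : Set ℤ} {P K : ℕ} (h : Per X P K) (x : ℤ) : cnt X x P = K := by
  obtain ⟨hP, hper, hK⟩ := h
  have step : ∀ x : ℤ, cnt X (x + 1) P = cnt X x P := by
    intro x
    have h1 := cnt_add X x 1 P
    have h2 := cnt_add X x P 1
    rw [add_comm 1 P, h2] at h1
    have h3 : cnt X (x + P) 1 = cnt X x 1 := by
      apply cnt_congr
      intro i
      rw [hper (x + i)]
      have : x + ↑P + i = x + i + ↑P := by ring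
      rw [this]
    rw [h3] at h1
    push_cast at h1
    omega
  have : ∀ n : ℕ, cnt X n P = K ∧ cnt X (-(n : ℤ)) P = K := by
    intro n
    induction n with
    | zero => simpa using hK
    | succ n ih =>
      constructor
      · have := step n
        push_cast
        rw [this]; exact ih.1
      · have := step (-((n : ℤ) + 1))
        have h1 : -((n : ℤ) + 1) + 1 = -n := by ring
        rw [h1] at this
        push_cast
        rw [← this]; exact ih.2
  rcases Int.eq_nat_or_neg x with ⟨n, rfl | rfl⟩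
  · exact (this n).1
  · exact (this n).2

/-- the density of the problem -/
def HasDens (X : Set ℤ) (δ : ℝ) : Prop :=
  Tendsto (fun N : ℕ => (cnt X (-(N : ℤ)) (2 * N + 1) : ℝ) / (2 * N + 1)) atTop (𝓝 δ)

theorem Per.dens {X : Set ℤ} {P K : ℕ} (h : Per X P K) : HasDens X ((K : ℝ) / P) := by
  have hP := h.1
  have hPr : (0 : ℝ) < P := by exact_mod_cast hP
  -- the counting function differs from linear by a bounded amount
  have hbound : ∀ (L : ℕ) (x : ℤ), |(cnt X x L : ℝ) - (K : ℝ) / P * L| ≤ P := by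
    intro L
    induction L using Nat.strong_induction_on with
    | _ L ih =>
    intro x
    by_cases hL : L < P
    · have h1 : cnt X x L ≤ L := by
        classical
        unfold cnt
        exact (Finset.card_filter_le _ _).trans (by rw [Finset.card_range])
      have h2 : K ≤ P := by
        rw [← h.2.2]
        classical
        unfold cnt
        exact (Finset.card_filter_le _ _).trans (by rw [Finset.card_range])
      have h3 : (cnt X x L : ℝ) ≤ L := by exact_mod_cast h1
      have h4 : (K : ℝ) ≤ P := by exact_mod_cast h2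
      have h5 : (L : ℝ) ≤ P := by exact_mod_cast hL.le
      have h6 : (K : ℝ) / P ≤ 1 := by rw [div_le_one hPr]; exact h4
      have h7 : 0 ≤ (K : ℝ) / P := by positivity
      have h8 : (K : ℝ) / P * L ≤ 1 * P := mul_le_mul h6 h5 (by positivity) (by norm_num)
      have h9 : 0 ≤ (K : ℝ) / P * L := by positivity
      have h10 : (0 : ℝ) ≤ cnt X x L := by positivity
      rw [abs_le]
      constructor <;> linarith
    · have hL' : L = P + (L - P) := by omega
      have h1 := cnt_add X x P (L - P)
      rw [← hL', h.cnt_eq] at h1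
      have h2 := ih (L - P) (by omega) (x + P)
      have h3 : ((L - P : ℕ) : ℝ) = L - P := by
        rw [Nat.cast_sub (by omega)]
      rw [h1]
      rw [h3] at h2
      have h4 : ((K + cnt X (x + ↑P) (L - P) : ℕ) : ℝ) - ↑K / ↑P * ↑L =
          (cnt X (x + ↑P) (L - P) : ℝ) - ↑K / ↑P * (↑L - ↑P) := by
        push_cast
        field_simp
        ring
      rw [h4]
      exact h2
  unfold HasDens
  have hlim : Tendsto (fun N : ℕ => (P : ℝ) / (2 * N + 1)) atTop (𝓝 0) := by
    apply Tendsto.const_div_atTop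
    apply tendsto_atTop_add_const_right
    exact (tendsto_natCast_atTop_atTop).const_mul_atTop (by norm_num)
  rw [tendsto_iff_norm_sub_tendsto_zero]
  apply squeeze_zero (fun _ => norm_nonneg _) _ hlim
  intro N
  have hN : (0 : ℝ) < 2 * N + 1 := by positivity
  have h1 := hbound (2 * N + 1) (-(N : ℤ))
  rw [Real.norm_eq_abs]
  have h2 : (cnt X (-(N : ℤ)) (2 * N + 1) : ℝ) / (2 * N + 1) - K / P =
      ((cnt X (-(N : ℤ)) (2 * N + 1) : ℝ) - K / P * ((2 * N + 1 : ℕ) : ℝ)) / (2 * N + 1) := by
    push_cast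
    field_simp
  rw [h2, abs_div, abs_of_pos hN]
  exact div_le_div_of_nonneg_right h1 hN.le

/-! ### hitting -/

/-- `X` meets every translate of `{0, u, v}` -/
def Hit (X : Set ℤ) (u v : ℤ) : Prop := ∀ t : ℤ, t ∈ X ∨ t + u ∈ X ∨ t + v ∈ X

/-- two patterns are hit by a periodic set of density at most `1/2` -/
def OK (u v w z : ℤ) : Prop :=
  ∃ (X : Set ℤ) (P K : ℕ), Per X P K ∧ 2 * K ≤ P ∧ Hit X u v ∧ Hit X w z

theorem OK.symm {u v w z : ℤ} (h : OK u v w z) : OK w z u v := by
  obtain ⟨X, P, K, h1, h2, h3, h4⟩ := h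
  exact ⟨X, P, K, h1, h2, h4, h3⟩

/-- transfer along pattern implications -/
theorem OK.imp {u v w z u' v' w' z' : ℤ} (h : OK u v w z) (h1 : ∀ X, Hit X u v → Hit X u' v')
    (h2 : ∀ X, Hit X w z → Hit X w' z') : OK u' v' w' z' := by
  obtain ⟨X, P, K, a, b, c, d⟩ := h
  exact ⟨X, P, K, a, b, h1 X c, h2 X d⟩

theorem cnt_dil (X : Set ℤ) (g : ℕ) (hg : 0 < g) (P : ℕ) :
    cnt {x | x / (g : ℤ) ∈ X} 0 (g * P) = g * cnt X 0 P := by
  classical
  induction P with
  | zero => simp [cnt]
  | succ P ih =>
    rw [Nat.mul_succ, cnt_add, cnt_add, ih, Nat.mul_add]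
    congr 1
    unfold cnt
    have hgz : (g : ℤ) ≠ 0 := by positivity
    have key : ∀ i ∈ Finset.range g, ((0 : ℤ) + ((g * P : ℕ) : ℤ) + (i : ℤ)) / (g : ℤ) = P := by
      intro i hi
      rw [Finset.mem_range] at hi
      have e1 : (0 : ℤ) + ((g * P : ℕ) : ℤ) + (i : ℤ) = (i : ℤ) + (g : ℤ) * P := by
        push_cast; ring
      rw [e1, Int.add_mul_ediv_left _ _ hgz, Int.ediv_eq_zero_of_lt (by positivity)
        (by exact_mod_cast hi), zero_add]
    by_cases hx : (P : ℤ) ∈ X
    · have e1 : (Finset.range g).filter (fun i : ℕ => (0 : ℤ) + ((g * P : ℕ) : ℤ) + (i : ℤ) ∈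
          {x : ℤ | x / (g : ℤ) ∈ X}) = Finset.range g := by
        rw [Finset.filter_eq_self]
        intro i hi
        rw [Set.mem_ofPred_eq, key i hi]
        exact hx
      rw [e1, Finset.card_range]
      have e2 : (Finset.range 1).filter (fun i : ℕ => (0 : ℤ) + (P : ℤ) + (i : ℤ) ∈ X) =
          Finset.range 1 := by
        rw [Finset.filter_eq_self]
        intro i hi
        rw [Finset.mem_range] at hi
        have : i = 0 := by omega
        subst this
        simpa using hx
      rw [e2, Finset.card_range, mul_one]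
    · have e1 : (Finset.range g).filter (fun i : ℕ => (0 : ℤ) + ((g * P : ℕ) : ℤ) + (i : ℤ) ∈
          {x : ℤ | x / (g : ℤ) ∈ X}) = ∅ := by
        rw [Finset.filter_eq_empty_iff]
        intro i hi
        rw [Set.mem_ofPred_eq, key i hi]
        exact hx
      rw [e1, Finset.card_empty]
      have e2 : (Finset.range 1).filter (fun i : ℕ => (0 : ℤ) + (P : ℤ) + (i : ℤ) ∈ X) = ∅ := by
        rw [Finset.filter_eq_empty_iff]
        intro i hi
        rw [Finset.mem_range] at hi
        have : i = 0 := by omega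
        subst this
        simpa using hx
      rw [e2, Finset.card_empty, mul_zero]

theorem OK.dil {u v w z : ℤ} (h : OK u v w z) (g : ℕ) (hg : 0 < g) :
    OK (g * u) (g * v) (g * w) (g * z) := by
  obtain ⟨X, P, K, hP, hK, h1, h2⟩ := h
  have hgz : (g : ℤ) ≠ 0 := by positivity
  have hhit : ∀ u v : ℤ, Hit X u v → Hit {x | x / (g : ℤ) ∈ X} (g * u) (g * v) := by
    intro u v h t
    simp only [Set.mem_ofPred_eq]
    rw [Int.add_mul_ediv_left _ _ hgz, Int.add_mul_ediv_left _ _ hgz]
    exact h (t / g)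
  refine ⟨{x | x / (g : ℤ) ∈ X}, g * P, g * K, ⟨Nat.mul_pos hg hP.1, ?_, ?_⟩, by nlinarith,
    hhit _ _ h1, hhit _ _ h2⟩
  · intro x
    simp only [Set.mem_ofPred_eq]
    push_cast
    rw [Int.add_mul_ediv_left _ _ hgz]
    exact hP.2.1 _
  · rw [cnt_dil X g hg, hP.2.2]

/-! ### the circular colourings -/

/-- the set `{x : r x mod 2m < m}` -/
def XX (m r : ℤ) : Set ℤ := {x | (r * x) % (2 * m) < m}

theorem XX_anti {m r : ℤ} (hm : 0 < m) (d : ℤ) (hd : (r * d) % (2 * m) = m) (x : ℤ) :
    x ∈ XX m r ↔ ¬ (x + d ∈ XX m r) := by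
  unfold XX
  simp only [Set.mem_ofPred_eq]
  have h1 : (r * (x + d)) % (2 * m) = (r * x % (2 * m) + m) % (2 * m) := by
    rw [mul_add, Int.add_emod, hd]
  rw [h1]
  have h2 := Int.emod_nonneg (r * x) (b := 2 * m) (by omega)
  have h3 := Int.emod_lt_of_pos (r * x) (b := 2 * m) (by omega)
  rcases lt_or_ge (r * x % (2 * m)) m with h | h
  · have e : (r * x % (2 * m) + m) % (2 * m) = r * x % (2 * m) + m :=
      Int.emod_eq_of_lt (by omega) (by omega)
    rw [e]
    omega
  · have e : (r * x % (2 * m) + m) % (2 * m) = r * x % (2 * m) - m :=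
      emod_of 1 (by ring) (by omega) (by omega)
    rw [e]
    omega

theorem odd_mul_mod {m r d : ℤ} (hm : 0 < m) (hr : r % 2 = 1) (hd : d = m ∨ d = -m) :
    (r * d) % (2 * m) = m := by
  obtain ⟨j, hj⟩ : ∃ j, r = 2 * j + 1 := ⟨r / 2, by omega⟩
  rcases hd with rfl | rfl
  · exact emod_of j (by rw [hj]; ring) (by omega) (by omega)
  · exact emod_of (-j - 1) (by rw [hj]; ring) (by omega) (by omega)

theorem XX_per {m r : ℤ} (hm : 0 < m) (hr : r % 2 = 1) :
    Per (XX m r) (2 * m.toNat) m.toNat := by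
  classical
  have hmn : ((m.toNat : ℕ) : ℤ) = m := Int.toNat_of_nonneg hm.le
  have hmod := odd_mul_mod hm hr (Or.inl rfl)
  refine ⟨by omega, ?_, ?_⟩
  · intro x
    push_cast
    rw [hmn, XX_anti hm m hmod x, show x + 2 * m = x + m + m by ring,
      XX_anti hm m hmod (x + m)]
    tauto
  · rw [two_mul, cnt_add]
    have h1 : cnt (XX m r) (0 + (m.toNat : ℤ)) m.toNat = cnt (XX m r)ᶜ 0 m.toNat := by
      unfold cnt
      congr 1
      ext i
      simp only [Finset.mem_filter, Set.mem_compl_iff]
      have h2 := XX_anti hm m hmod (0 + (i : ℤ))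
      have e : (0 : ℤ) + (m.toNat : ℤ) + i = 0 + i + m := by rw [hmn]; ring
      rw [e]
      tauto
    rw [h1]
    unfold cnt
    have h2 := Finset.card_filter_add_card_filter_not (s := Finset.range m.toNat)
      (fun i : ℕ => (0 : ℤ) + (i : ℤ) ∈ XX m r)
    rw [Finset.card_range] at h2
    simp only [Set.mem_compl_iff]
    exact h2

theorem hit_anti {m r : ℤ} (hm : 0 < m) {u v : ℤ}
    (h : (r * u) % (2 * m) = m ∨ (r * v) % (2 * m) = m ∨ (r * (v - u)) % (2 * m) = m) :
    Hit (XX m r) u v := by
  intro t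
  rcases h with h | h | h
  · have := XX_anti hm u h t
    tauto
  · have := XX_anti hm v h t
    tauto
  · have := XX_anti hm (v - u) h (t + u)
    rw [show t + u + (v - u) = t + v by ring] at this
    tauto

theorem hit_arc {m r : ℤ} (hm : 0 < m) {u v : ℤ}
    (h : Arc m ((r * u) % (2 * m)) ((r * v) % (2 * m))) : Hit (XX m r) u v := by
  have key : ∀ u v : ℤ, ((r * u) % (2 * m) ≤ m ∧ m ≤ (r * v) % (2 * m) ∧
      (r * v) % (2 * m) ≤ (r * u) % (2 * m) + m) → Hit (XX m r) u v := by
    intro u v ⟨h1, h2, h3⟩ t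
    unfold XX
    simp only [Set.mem_ofPred_eq]
    have hadd : ∀ d : ℤ, (r * (t + d)) % (2 * m) = (r * t % (2 * m) + r * d % (2 * m)) % (2 * m) := by
      intro d
      rw [mul_add, Int.add_emod]
    rw [hadd u, hadd v]
    have t0 := Int.emod_nonneg (r * t) (b := 2 * m) (by omega)
    have t1 := Int.emod_lt_of_pos (r * t) (b := 2 * m) (by omega)
    have u0 := Int.emod_nonneg (r * u) (b := 2 * m) (by omega)
    have v1 := Int.emod_lt_of_pos (r * v) (b := 2 * m) (by omega)
    by_cases hz : r * t % (2 * m) < m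
    · left; exact hz
    right
    by_cases hu : 2 * m ≤ r * t % (2 * m) + r * u % (2 * m)
    · left
      have e : (r * t % (2 * m) + r * u % (2 * m)) % (2 * m) =
          r * t % (2 * m) + r * u % (2 * m) - 2 * m :=
        emod_of 1 (by ring) (by omega) (by omega)
      rw [e]; omega
    · right
      have e : (r * t % (2 * m) + r * v % (2 * m)) % (2 * m) =
          r * t % (2 * m) + r * v % (2 * m) - 2 * m :=
        emod_of 1 (by ring) (by omega) (by omega)
      rw [e]; omega
  rcases h with h | h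
  · exact key u v h
  · have := key v u h
    intro t
    have := this t
    tauto

/-- The combined criterion. -/
theorem ok_of_good {m u v w z : ℤ} (hm : 0 < m) (hg : Good m u v)
    (hwz : (w = m ∨ w = -m) ∨ (z - w = m ∨ z - w = -m)) : OK u v w z := by
  obtain ⟨r, hr, harc⟩ := hg
  refine ⟨XX m r, 2 * m.toNat, m.toNat, XX_per hm hr, le_rfl, hit_arc hm harc, ?_⟩
  apply hit_anti hm
  rcases hwz with h | h
  · left; exact odd_mul_mod hm hr h
  · right; right; exact odd_mul_mod hm hr h

end Q151.Ships
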